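import Mathlib
import Pool.Agent.Q105.TwBall
import Pool.Agent.Q105.Twisted
import Pool.Agent.Q105.TwistedQuot

/-!
# The degree of twisted commutativity of a virtually abelian group via finite quotients
-/

namespace Pool.Agent.Results.MP_13fe47_al.TdcEqInf

open Pool.Agent.Q105.TwBall Pool.Agent.Q105.Tw Pool.Agent.Q105.Growth Filter Topology

/-- The infimum of the degrees of twisted commutativity of the finite quotients of `G` by
`φ`-invariant normal subgroups of finite index. -/
noncomputable def I {G : Type*} [Group G] (φ : G →* G) : ℝ :=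
  sInf {r : ℝ | ∃ (N : Subgroup G) (_ : N.Normal) (_ : N.FiniteIndex) (h : N ≤ N.comap φ),
    r = finTdc (QuotientGroup.map N N φ h)}

/-- For every finitely generated virtually abelian group `G`, every finite generating set `X` and
every endomorphism `φ`, `tdc_X(φ, G) = I(φ, G)`. -/
theorem result (G : Type*) [Group G]
    (hG : ∃ A : Subgroup G, A.FiniteIndex ∧ ∀ x ∈ A, ∀ y ∈ A, x * y = y * x) (φ : G →* G)
    (X : Set G) (hX : X.Finite) (hgen : Subgroup.closure X = ⊤) :
    tdc φ X = I φ := by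
  classical
  obtain ⟨A0, hA0, hcomm0⟩ := hG
  obtain ⟨L, hL⟩ := exists_tdc_limit φ A0 hA0.index_ne_zero hcomm0
  have hLX := hL X hX hgen
  rw [tdc_eq_of_dens φ X L hLX]
  have hfg : Group.FG G := by
    rw [Group.fg_iff]
    exact ⟨X, hgen, hX⟩
  set A := A0.normalCore with hA
  have hcomm : ∀ x ∈ A, ∀ y ∈ A, x * y = y * x := fun x hx y hy =>
    hcomm0 x (Subgroup.normalCore_le _ hx) y (Subgroup.normalCore_le _ hy)
  have hfiA : A.FiniteIndex := inferInstance
  set A' := A ⊓ A.comap φ with hA'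
  have hA'' : ∀ a ∈ A', a ∈ A ∧ φ a ∈ A := fun a ha => by
    rw [hA', Subgroup.mem_inf, Subgroup.mem_comap] at ha
    exact ha
  have hfic : (A.comap φ).FiniteIndex := by
    refine ⟨?_⟩
    rw [Subgroup.index_comap]
    intro h0
    have := Subgroup.relIndex_dvd_index_of_normal A φ.range
    rw [h0, zero_dvd_iff] at this
    exact hfiA.index_ne_zero this
  have hfi' : A'.FiniteIndex := inferInstance
  have hfiB : (A'.prod A').FiniteIndex := inferInstance
  have hfinB : Finite ((G × G) ⧸ (A'.prod A')) := inferInstance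
  have := Fintype.ofFinite ((G × G) ⧸ (A'.prod A'))
  have hcB : ∀ x ∈ A'.prod A', ∀ y ∈ A'.prod A', x * y = y * x := by
    rintro ⟨x1, x2⟩ hx ⟨y1, y2⟩ hy
    rw [Subgroup.mem_prod] at hx hy
    rw [Prod.mk_mul_mk, Prod.mk_mul_mk, hcomm x1 (hA'' _ hx.1).1 y1 (hA'' _ hy.1).1,
      hcomm x2 (hA'' _ hx.2).1 y2 (hA'' _ hy.2).1]
  have hs : Stable (Xp X) :=
    stable_of_virtuallyAbelian (Xp_finite hX) (closure_Xp hgen) (A'.prod A')
      hfiB.index_ne_zero hcB
  set S : Set ℝ := {r : ℝ | ∃ (N : Subgroup G) (_ : N.Normal) (_ : N.FiniteIndex)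
    (h : N ≤ N.comap φ), r = finTdc (QuotientGroup.map N N φ h)} with hS
  have hlow : ∀ r ∈ S, L ≤ r := by
    rintro r ⟨N, hN1, hN2, h, rfl⟩
    have h1 := dens_EN φ N h hX hgen hs
    refine le_of_tendsto_of_tendsto hLX h1 (Eventually.of_forall fun n => ?_)
    simp only
    apply div_le_div_of_nonneg_right _ (by positivity)
    have : (Ball (Xp X) n ∩ E φ).ncard ≤ (Ball (Xp X) n ∩ EN φ N).ncard :=
      Set.ncard_le_ncard (Set.inter_subset_inter_right _ (E_subset_EN φ N))
        ((Ball_finite (Xp X) (Xp_finite hX) n).subset Set.inter_subset_left)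
    exact_mod_cast this
  have hne : S.Nonempty := by
    refine ⟨_, ⊤, inferInstance, inferInstance, ?_, rfl⟩
    intro x _
    trivial
  apply le_antisymm
  · exact le_csInf hne hlow
  · have hbdd : BddBelow S := ⟨L, hlow⟩
    refine le_of_forall_pos_le_add fun ε hε => ?_
    set m : ℕ := Fintype.card ((G × G) ⧸ (A'.prod A')) with hm
    obtain ⟨M, hM⟩ := exists_nat_gt ((m : ℝ) / ε)
    have hM0 : (0 : ℝ) < M := lt_of_le_of_lt (by positivity) hM
    have hMpos : 0 < M := by exact_mod_cast hM0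
    choose F hF1 hF2 hF3 using fun c =>
      exists_close φ A A' hA'' hcomm hX hgen hs M hMpos c
    obtain ⟨N, hN1, hN2, hN3, hN4, hN5⟩ := exists_avoid_finite φ A hcomm A (⋃ c, F c)
      (Set.finite_iUnion hF1) (by simpa using hF2)
    choose d e hd he hde using fun c => hF3 c N hN1 hN4 (fun g hg => hN5 g
      (Set.mem_iUnion.mpr ⟨c, hg⟩))
    have h1 := dens_EN φ N hN3 hX hgen hs
    have h2 : Dens (Xp X) (EN φ N) (∑ c, d c) :=
      dens_fiber (Xp_finite hX) (EN φ N) (fun p => (p : (G × G) ⧸ (A'.prod A'))) d hd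
    have h3 : Dens (Xp X) (E φ) (∑ c, e c) :=
      dens_fiber (Xp_finite hX) (E φ) (fun p => (p : (G × G) ⧸ (A'.prod A'))) e he
    have e1 : finTdc (QuotientGroup.map N N φ hN3) = ∑ c, d c := tendsto_nhds_unique h1 h2
    have e2 : L = ∑ c, e c := tendsto_nhds_unique hLX h3
    calc I φ ≤ finTdc (QuotientGroup.map N N φ hN3) := csInf_le hbdd ⟨N, hN1, hN2, hN3, rfl⟩
      _ = ∑ c, d c := e1
      _ ≤ ∑ c, (e c + 1 / M) := Finset.sum_le_sum fun c _ => hde c
      _ = L + m * (1 / M) := by
          rw [Finset.sum_add_distrib, ← e2, Finset.sum_const, Finset.card_univ, nsmul_eq_mul]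
      _ ≤ L + ε := by
          rw [div_lt_iff₀ hε] at hM
          have : (m : ℝ) * (1 / M) ≤ ε := by
            rw [mul_one_div, div_le_iff₀ hM0]
            linarith
          linarith

end Pool.Agent.Results.MP_13fe47_al.TdcEqInf
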